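import Pool.Agent.EQZ.Main

/-!
# Torus-equivariant symplectic embeddings of ellipsoids: reduction to the fixed ellipsoids
-/

open Set
open scoped ENNReal

namespace Pool.Agent.Results.MP_aa1c68_gt.EquivariantReduction

open Pool.Agent.EQZ

/-- **Reduction of the torus-equivariant problem to the fixed ellipsoids.**

Let the torus `Tᵏ` act linearly on `ℂⁿ` through characters `χ_1, …, χ_n ∈ ℤᵏ` such that
`χ_j ≠ m χ_i` for all integers `m ≥ 2` and all `i, j` with `χ_i ≠ 0` (characters may vanish, and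
may be negative multiples of each other), let `a, b ∈ (0, ∞]ⁿ` (not necessarily monotone), and let
`N = {j : χ_j = 0}`, so that `E(a_N)` and `E(b_N)` are the fixed point sets of `E(a)` and `E(b)`.  The following are equivalent:

* there is a `Tᵏ`-equivariant symplectic embedding `E(a) → E(b)`;
* there is a `Tᵏ`-equivariant differentiable symplectic map `E(a) → E(b)` which restricts to a
  symplectic embedding `E(a_N) → E(b_N)` of the fixed point sets;
* there is a symplectic embedding `E(a_N) → E(b_N)` (without any symmetry), and a permutation `σ`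
  of the indices with `χ_{σ(j)} = χ_j` for all `j` and `a_j ≤ b_{σ(j)}` for all `j` outside `N`. -/
theorem result (n k : ℕ) (χ : Fin n → Fin k → ℤ)
    (hχ : ∀ i j, χ i ≠ 0 → ∀ m : ℤ, 2 ≤ m → χ j ≠ m • χ i)
    (a b : Fin n → ℝ≥0∞) (ha : ∀ j, 0 < a j) (hb : ∀ j, 0 < b j) :
    List.TFAE [
      ∃ φ : (Fin n → ℂ) → (Fin n → ℂ), IsSymplecticEmbedding (Ellipsoid a) (Ellipsoid b) φ ∧
        ∀ t : Fin k → ℝ, ∀ z ∈ Ellipsoid a, φ (act χ t z) = act χ t (φ z),
      ∃ φ : (Fin n → ℂ) → (Fin n → ℂ), IsSymplecticMap (Ellipsoid a) (Ellipsoid b) φ ∧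
        (∀ t : Fin k → ℝ, ∀ z ∈ Ellipsoid a, φ (act χ t z) = act χ t (φ z)) ∧
        IsSymplecticEmbedding (Ellipsoid fun j : {j // χ j = 0} => a j)
          (Ellipsoid fun j : {j // χ j = 0} => b j) (fun z j => φ (ext0 (fun j => χ j = 0) z) j),
      (∃ ψ : ({j // χ j = 0} → ℂ) → ({j // χ j = 0} → ℂ),
        IsSymplecticEmbedding (Ellipsoid fun j : {j // χ j = 0} => a j)
          (Ellipsoid fun j : {j // χ j = 0} => b j) ψ) ∧
        ∃ σ : Equiv.Perm (Fin n), (∀ j, χ (σ j) = χ j) ∧ ∀ j, χ j ≠ 0 → a j ≤ b (σ j)] := by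
  rw [ellipsoid_eq a ha, ellipsoid_eq b hb,
    ellipsoid_eq (fun j : {j // χ j = 0} => a j) (fun j => ha j),
    ellipsoid_eq (fun j : {j // χ j = 0} => b j) (fun j => hb j)]
  have hle : ∀ i j, a j ≤ b i ↔ ((b i)⁻¹).toReal ≤ ((a j)⁻¹).toReal := by
    intro i j
    rw [ENNReal.toReal_le_toReal (ENNReal.inv_ne_top.2 (hb i).ne')
      (ENNReal.inv_ne_top.2 (ha j).ne'), ENNReal.inv_le_inv]
  tfae_have 1 → 2 := by
    rintro ⟨φ, hφ, he⟩
    exact ⟨φ, hφ.toIsSymplecticMap, he, restrict_embedding (N := fun j => χ j = 0)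
      (α := fun j => ((a j)⁻¹).toReal) (β := fun j => ((b j)⁻¹).toReal)
      (fun j => Iff.rfl) (fun j => ENNReal.toReal_nonneg) hφ he⟩
  tfae_have 2 → 3 := by
    rintro ⟨φ, hφ, he, hr⟩
    refine ⟨⟨_, hr⟩, ?_⟩
    obtain ⟨σ, hσ1, hσ2⟩ := exists_perm_of_map hχ (fun j => ENNReal.toReal_nonneg)
      (fun j => ENNReal.toReal_nonneg) hφ he
    exact ⟨σ, hσ1, fun j hj => (hle _ _).2 (hσ2 j hj)⟩
  tfae_have 3 → 1 := by
    rintro ⟨⟨ψ, hψ⟩, σ, hσ1, hσ2⟩
    exact exists_equivariant (N := fun j => χ j = 0)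
      (α := fun j => ((a j)⁻¹).toReal) (β := fun j => ((b j)⁻¹).toReal)
      (fun j => Iff.rfl) (fun j => ENNReal.toReal_nonneg) hψ hσ1
      fun j hj => (hle _ _).1 (hσ2 j hj)
  tfae_finish

end Pool.Agent.Results.MP_aa1c68_gt.EquivariantReduction
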