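import Pool.Agent.LAT.Det

/-!
# A lattice criterion for symplectic embeddings of ellipsoids in all dimensions
-/

open Set
open scoped ENNReal

namespace Pool.Agent.Results.MP_aa1c68_gt.LatticeCriterion

open Pool.Agent.H60EQ

/-- The closed simplex `Δ(b) = {p ∈ [0, ∞)ⁿ : ∑ p_j / b_j ≤ 1}`, for `b_j ∈ (0, ∞]`; the terms with
`b_j = ∞` are `0`. -/
def Simplex {n : ℕ} (b : Fin n → ℝ≥0∞) : Set (Fin n → ℝ) :=
  {p | (∀ j, 0 ≤ p j) ∧ ∑ j, ENNReal.ofReal (p j) / b j ≤ 1}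

/-- **A lattice criterion for symplectic embeddings of ellipsoids.**

Let `a ∈ (0, ∞)ⁿ`, `b ∈ (0, ∞]ⁿ` (not necessarily monotone), and let `w₀, w_1, …, w_n` be points
of the simplex `Δ(b)` such that for every nonzero integer vector `m` there is an index `i` with
`a_i ≤ |⟨m, w_i - w₀⟩|`.  Then `E(t a)` embeds symplectically into `E(b)` for every `0 < t < 1`. -/
theorem result (n : ℕ) (a : Fin n → ℝ) (ha : ∀ i, 0 < a i) (b : Fin n → ℝ≥0∞)
    (hb : ∀ j, 0 < b j) (w₀ : Fin n → ℝ) (w : Fin n → Fin n → ℝ)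
    (hw₀ : w₀ ∈ Simplex b) (hw : ∀ i, w i ∈ Simplex b)
    (hlat : ∀ m : Fin n → ℤ, m ≠ 0 → ∃ i, a i ≤ |∑ j, (m j : ℝ) * (w i j - w₀ j)|)
    (t : ℝ) (ht₀ : 0 < t) (ht₁ : t < 1) :
    ∃ φ : (Fin n → ℂ) → (Fin n → ℂ),
      IsSymplecticEmbedding (Ellipsoid fun i => ENNReal.ofReal (t * a i)) (Ellipsoid b) φ := by
  have hta : ∀ i, 0 < t * a i := fun i => mul_pos ht₀ (ha i)
  rw [ellipsoid_eq b hb, ellipsoid_eq _ fun i => ENNReal.ofReal_pos.2 (hta i)]
  have hsimp : ∀ p ∈ Simplex b, (∀ j, 0 ≤ p j) ∧ ∑ j, p j * ((b j)⁻¹).toReal ≤ 1 := by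
    rintro p ⟨hp, hs⟩
    refine ⟨hp, ?_⟩
    have h1 : ∀ j, ENNReal.ofReal (p j) / b j = ENNReal.ofReal (p j * ((b j)⁻¹).toReal) := by
      intro j
      rw [ENNReal.ofReal_mul (hp j), ENNReal.ofReal_toReal (ENNReal.inv_ne_top.2 (hb j).ne'),
        div_eq_mul_inv]
    simp_rw [h1] at hs
    rw [← ENNReal.ofReal_sum_of_nonneg
      (fun j _ => mul_nonneg (hp j) ENNReal.toReal_nonneg), ENNReal.ofReal_le_one] at hs
    exact hs
  set A : Matrix (Fin n) (Fin n) ℝ := Matrix.of fun j i => (w i j - w₀ j) / a i with hA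
  have hAe : ∀ j i, A j i = (w i j - w₀ j) / a i := fun j i => rfl
  have hlat' : ∀ m : Fin n → ℤ, m ≠ 0 → ∃ i, 1 ≤ |∑ j, A j i * m j| := by
    intro m hm
    obtain ⟨i, hi⟩ := hlat m hm
    refine ⟨i, ?_⟩
    have h1 : ∑ j, A j i * m j = (∑ j, (m j : ℝ) * (w i j - w₀ j)) / a i := by
      rw [Finset.sum_div]
      exact Finset.sum_congr rfl fun j _ => by rw [hAe]; ring
    rw [h1, abs_div, abs_of_pos (ha i), le_div_iff₀ (ha i), one_mul]
    exact hi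
  have hvert : ∀ i j, w₀ j + a i * A j i = w i j := by
    intro i j
    have := ha i
    rw [hAe]
    field_simp
    ring
  refine Pool.Agent.LAT.exists_embedding ha (Pool.Agent.LAT.det_ne_zero_of_lattice hlat')
    (hsimp w₀ hw₀) ?_ hlat' ht₁ (isOpen_el _) ?_
  · intro i
    simp_rw [hvert]
    exact hsimp _ (hw i)
  · intro z hz
    have h1 : ∑ j, Real.pi * ‖z j‖ ^ 2 * ((ENNReal.ofReal (t * a j))⁻¹).toReal < 1 := hz
    have h2 : ∀ j, ((ENNReal.ofReal (t * a j))⁻¹).toReal = (t * a j)⁻¹ := by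
      intro j
      rw [ENNReal.toReal_inv, ENNReal.toReal_ofReal (hta j).le]
    simp_rw [h2] at h1
    have h3 : ∑ i, Real.pi * ‖z i‖ ^ 2 / a i
        = t * ∑ j, Real.pi * ‖z j‖ ^ 2 * (t * a j)⁻¹ := by
      rw [Finset.mul_sum]
      refine Finset.sum_congr rfl fun j _ => ?_
      have := ha j
      field_simp
    rw [h3]
    nlinarith

end Pool.Agent.Results.MP_aa1c68_gt.LatticeCriterion
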