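import Pool.Agent.EQZ.Core

/-!
# A necessary condition for torus-equivariant symplectic embeddings of ellipsoids
-/

open Set
open scoped ENNReal

namespace Pool.Agent.Results.MP_aa1c68_gt.OddMultiples

open Pool.Agent.EQZ

/-- **A necessary condition for equivariant symplectic embeddings of ellipsoids.**

Let the torus `Tᵏ` act linearly on `ℂⁿ` through characters `χ_1, …, χ_n ∈ ℤᵏ` (which may vanish),
let `ψ ∈ ℤᵏ` be nonzero, and suppose that each `χ_j` which is a positive integer multiple of `ψ`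
is an odd multiple `m_j ψ` of `ψ`.  If there is a `Tᵏ`-equivariant differentiable symplectic map
`E(a) → E(b)`, where `a, b ∈ (0, ∞]ⁿ`, then for every `h` the number of the indices `j` with
`χ_j` a positive multiple of `ψ` and `m_j a_j > h` is at most the number of the indices `j` with
`χ_j` a positive multiple of `ψ` and `m_j b_j > h`. -/
theorem result (n k : ℕ) (χ : Fin n → Fin k → ℤ)
    (ψ : Fin k → ℤ) (hψ : ψ ≠ 0) (m : Fin n → ℕ)
    (hm : ∀ j, (∃ l : ℤ, 0 < l ∧ χ j = l • ψ) → χ j = m j • ψ ∧ Odd (m j))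
    (a b : Fin n → ℝ≥0∞) (ha : ∀ j, 0 < a j) (hb : ∀ j, 0 < b j)
    (φ : (Fin n → ℂ) → (Fin n → ℂ)) (hφ : IsSymplecticMap (Ellipsoid a) (Ellipsoid b) φ)
    (he : ∀ t : Fin k → ℝ, ∀ z ∈ Ellipsoid a, φ (act χ t z) = act χ t (φ z)) (h : ℝ≥0∞) :
    {j | (∃ l : ℤ, 0 < l ∧ χ j = l • ψ) ∧ h < m j * a j}.ncard ≤
      {j | (∃ l : ℤ, 0 < l ∧ χ j = l • ψ) ∧ h < m j * b j}.ncard := by
  classical
  rcases eq_or_ne h 0 with rfl | h0
  · refine Set.ncard_le_ncard ?_ (Set.toFinite _)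
    rintro j ⟨hj, -⟩
    refine ⟨hj, ?_⟩
    have h1 : (0 : ℝ≥0∞) < m j := by exact_mod_cast (hm j hj).2.pos
    exact ENNReal.mul_pos h1.ne' (hb j).ne'
  rcases eq_or_ne h ⊤ with rfl | htop
  · simp
  rw [ellipsoid_eq a ha] at hφ he
  rw [ellipsoid_eq b hb] at hφ
  have hy : 0 < (h⁻¹).toReal :=
    ENNReal.toReal_pos (ENNReal.inv_ne_zero.2 htop) (ENNReal.inv_ne_top.2 h0)
  have h1 := class_card_le (fun j => ENNReal.toReal_nonneg) (fun j => ENNReal.toReal_nonneg)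
    hφ he hψ (P := fun j => ∃ l : ℤ, 0 < l ∧ χ j = l • ψ) (fun j l h1 h2 => ⟨l, h1, h2⟩) hm hy
  have h2 : ∀ c : Fin n → ℝ≥0∞, (∀ j, 0 < c j) → ∀ j,
      (((c j)⁻¹).toReal < (h⁻¹).toReal * m j ↔ h < m j * c j) := by
    intro c hc j
    have h3 : (h⁻¹).toReal * m j = (h⁻¹ * m j).toReal := by
      rw [ENNReal.toReal_mul, ENNReal.toReal_natCast]
    rw [h3, ENNReal.toReal_lt_toReal (ENNReal.inv_ne_top.2 (hc j).ne')
      (ENNReal.mul_ne_top (ENNReal.inv_ne_top.2 h0) (ENNReal.natCast_ne_top _))]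
    rw [mul_comm, ← div_eq_mul_inv, ENNReal.lt_div_iff_mul_lt (Or.inl h0) (Or.inl htop),
      mul_comm, ← div_eq_mul_inv, ENNReal.div_lt_iff (Or.inl (hc j).ne') (Or.inr htop)]
  have h4 : ∀ c : Fin n → ℝ≥0∞, (∀ j, 0 < c j) →
      {j | (∃ l : ℤ, 0 < l ∧ χ j = l • ψ) ∧ h < m j * c j}.ncard =
        (Finset.univ.filter fun j => (∃ l : ℤ, 0 < l ∧ χ j = l • ψ) ∧
          ((c j)⁻¹).toReal < (h⁻¹).toReal * m j).card := by
    intro c hc
    rw [← Set.ncard_coe_finset]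
    congr 1
    ext j
    simp only [Finset.coe_filter, Finset.mem_univ, true_and, Set.mem_ofPred_eq, h2 c hc]
  rw [h4 a ha, h4 b hb]
  convert h1

end Pool.Agent.Results.MP_aa1c68_gt.OddMultiples
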